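import Pool.Agent.Helper72.PT.St

open Finset

namespace Pool.Agent.Helper7.PT

open Pool.HW Pool.PL Pool.PT

private theorem image_le' {α β : Type*} [DecidableEq β] (s : Finset α) (g : α → β) (f : β → ℝ)
    (hf : ∀ b, 0 ≤ f b) : ∑ b ∈ s.image g, f b ≤ ∑ a ∈ s, f (g a) := by
  classical
  induction s using Finset.induction_on with
  | empty => simp
  | insert a s ha ih =>
    rw [Finset.image_insert, Finset.sum_insert ha]
    by_cases h : g a ∈ s.image g
    · rw [Finset.insert_eq_of_mem h]
      have := hf (g a)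
      linarith
    · rw [Finset.sum_insert h]
      linarith

theorem gH_mono_a {z : ℝ} (hz : 0 ≤ z) (m : ℕ) {a b : ℕ} (h : a ≤ b) : gH z m a ≤ gH z m b := by
  refine Finset.sum_le_sum_of_subset_of_nonneg (fun w hw => ?_) (fun w _ _ => pow_nonneg hz _)
  rw [mem_wle] at hw ⊢
  refine ⟨hw.1, hw.2.1, fun p hp => (hw.2.2 p hp).trans ?_⟩
  exact_mod_cast h

theorem gH_mono_m {z : ℝ} (hz : 0 ≤ z) (a : ℕ) {m n : ℕ} (h : m ≤ n) : gH z m a ≤ gH z n a := by
  refine Finset.sum_le_sum_of_subset_of_nonneg (fun w hw => ?_) (fun w _ _ => pow_nonneg hz _)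
  rw [mem_wle] at hw ⊢
  exact ⟨hw.1.trans h, hw.2⟩

theorem gH_nonneg {z : ℝ} (hz : 0 ≤ z) (m a : ℕ) : 0 ≤ gH z m a :=
  Finset.sum_nonneg fun _ _ => pow_nonneg hz _

/-- one step: a word of height at most `a + 1` -/
theorem gH_step {z : ℝ} (hz : 0 ≤ z) (m a : ℕ) :
    gH z m (a + 1) ≤ gH z m a +
      (if a + 1 ≤ m then bH z m (a + 1) * gH z (m - (a + 1)) a else 0) := by
  classical
  unfold gH bH
  split_ifs with hm
  · let T := (wle (BrH (a + 1)) m ×ˢ wle (HsH a) (m - (a + 1)))
    let g : List Dir × List Dir → List Dir := fun p => p.1 ++ p.2.map flipY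
    have hsub : wle (HsH (a + 1)) m ⊆ wle (HsH a) m ∪ T.image g := by
      intro w hw
      rw [mem_wle] at hw
      obtain ⟨hl, hH⟩ := hw
      rw [Finset.mem_union]
      rcases half_decomp hH with h | ⟨u, v, huv, hu, hv⟩
      · left; rw [mem_wle]; exact ⟨hl, h⟩
      · right
        refine Finset.mem_image.2 ⟨(u, v), ?_, huv.symm⟩
        have hl' := hl
        rw [huv, List.length_append, List.length_map] at hl'
        have h2 : (a + 1 : ℕ) ≤ u.length := by
          have e1 := abs_Y_le u
          have e2 := hu.2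
          rw [e2] at e1
          have e3 := (le_abs_self _).trans e1
          exact_mod_cast e3
        rw [Finset.mem_product, mem_wle, mem_wle]
        exact ⟨⟨by show u.length ≤ m; omega, hu⟩,
          ⟨by show v.length ≤ m - (a + 1); omega, hv⟩⟩
    have h1 : ∑ w ∈ wle (HsH (a + 1)) m, z ^ w.length ≤
        ∑ w ∈ wle (HsH a) m ∪ T.image g, z ^ w.length :=
      Finset.sum_le_sum_of_subset_of_nonneg hsub (fun w _ _ => pow_nonneg hz _)
    have h2 : ∑ w ∈ wle (HsH a) m ∪ T.image g, z ^ w.length ≤
        ∑ w ∈ wle (HsH a) m, z ^ w.length + ∑ w ∈ T.image g, z ^ w.length := by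
      have := Finset.sum_union_inter (s₁ := wle (HsH a) m) (s₂ := T.image g)
        (f := fun w : List Dir => z ^ w.length)
      have h2 : 0 ≤ ∑ w ∈ wle (HsH a) m ∩ T.image g, z ^ w.length :=
        Finset.sum_nonneg fun w _ => pow_nonneg hz _
      linarith
    have h3 : ∑ w ∈ T.image g, z ^ w.length ≤ ∑ p ∈ T, z ^ (g p).length :=
      image_le' T g (fun w => z ^ w.length) (fun w => pow_nonneg hz _)
    have h4 : ∑ p ∈ T, z ^ (g p).length = (∑ w ∈ wle (BrH (a + 1)) m, z ^ w.length) *
        ∑ v ∈ wle (HsH a) (m - (a + 1)), z ^ v.length := by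
      rw [Finset.sum_mul_sum, ← Finset.sum_product']
      refine Finset.sum_congr rfl fun p _ => ?_
      show z ^ (p.1 ++ p.2.map flipY).length = _
      rw [List.length_append, List.length_map, pow_add]
    linarith
  · rw [add_zero]
    refine Finset.sum_le_sum_of_subset_of_nonneg (fun w hw => ?_) (fun w _ _ => pow_nonneg hz _)
    rw [mem_wle] at hw ⊢
    obtain ⟨hl, hH⟩ := hw
    refine ⟨hl, hH.1, fun p hp => ?_⟩
    have e1 := abs_Y_le p
    have e2 := (le_abs_self _).trans e1
    have e3 := hp.length_le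
    have e4 : (p.length : ℤ) ≤ a := by
      have : p.length ≤ a := by omega
      exact_mod_cast this
    exact e2.trans e4

theorem big : StBig := by
  intro z n N hz hN hb
  have key : ∀ k m : ℕ, m ≤ n → gH z m (N + k) ≤ gH z n N * ((k : ℝ) + 1) ^ (m / N) := by
    intro k
    induction k with
    | zero =>
      intro m hm
      have := gH_mono_m hz N hm
      simpa using this
    | succ k ih =>
      intro m hm
      have h1 := gH_step hz m (N + k)
      have hG := gH_nonneg hz n N
      have hk : (0 : ℝ) ≤ k := Nat.cast_nonneg k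
      have e : N + (k + 1) = N + k + 1 := by ring
      rw [e]
      refine h1.trans ?_
      split_ifs with hc
      · have h2 := ih m hm
        have h3 := ih (m - (N + k + 1)) (by omega)
        have h4 := hb m (N + k + 1) hm
        have h5 := gH_nonneg hz (m - (N + k + 1)) (N + k)
        have h6 : bH z m (N + k + 1) * gH z (m - (N + k + 1)) (N + k) ≤
            gH z (m - (N + k + 1)) (N + k) := by
          calc _ ≤ 1 * gH z (m - (N + k + 1)) (N + k) := mul_le_mul_of_nonneg_right h4 h5
            _ = _ := one_mul _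
        obtain ⟨q, hq⟩ : ∃ q, m / N = q + 1 := by
          have : 1 ≤ m / N := (Nat.one_le_div_iff (by omega)).2 (by omega)
          exact ⟨m / N - 1, by omega⟩
        have h7 : (m - (N + k + 1)) / N ≤ q := by
          calc (m - (N + k + 1)) / N ≤ (m - N) / N := Nat.div_le_div_right (by omega)
            _ = q := by
              have h8 : m / N = (m - N) / N + 1 := by
                conv_lhs => rw [show m = (m - N) + N by omega]
                rw [Nat.add_div_right _ (by omega)]
              omega
        have h8 : ((k : ℝ) + 1) ^ ((m - (N + k + 1)) / N) ≤ ((k : ℝ) + 1) ^ q :=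
          pow_le_pow_right₀ (by linarith) h7
        have h9 : ((k : ℝ) + 1) ^ q ≤ ((k : ℝ) + 2) ^ q :=
          pow_le_pow_left₀ (by linarith) (by linarith) q
        rw [hq]
        rw [hq] at h2
        push_cast
        calc gH z m (N + k) + bH z m (N + k + 1) * gH z (m - (N + k + 1)) (N + k)
            ≤ gH z n N * ((k : ℝ) + 1) ^ (q + 1) + gH z n N * ((k : ℝ) + 1) ^ q := by
              have := mul_le_mul_of_nonneg_left h8 hG
              linarith
          _ = gH z n N * (((k : ℝ) + 2) * ((k : ℝ) + 1) ^ q) := by rw [pow_succ]; ring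
          _ ≤ gH z n N * (((k : ℝ) + 2) * ((k : ℝ) + 2) ^ q) :=
              mul_le_mul_of_nonneg_left (mul_le_mul_of_nonneg_left h9 (by linarith)) hG
          _ = gH z n N * ((k : ℝ) + 1 + 1) ^ (q + 1) := by rw [pow_succ]; ring
      · rw [add_zero]
        refine (ih m hm).trans (mul_le_mul_of_nonneg_left ?_ hG)
        refine pow_le_pow_left₀ (by linarith) ?_ _
        push_cast
        linarith
  rcases Nat.lt_or_ge n N with h | h
  · rw [Nat.div_eq_of_lt h, pow_zero, mul_one]
    exact gH_mono_a hz n h.le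
  · obtain ⟨k, rfl⟩ := Nat.exists_eq_add_of_le h
    refine (key k (N + k) le_rfl).trans
      (mul_le_mul_of_nonneg_left (pow_le_pow_left₀ (by positivity) ?_ _) (gH_nonneg hz _ _))
    push_cast
    have : (0 : ℝ) ≤ N := Nat.cast_nonneg N
    linarith

end Pool.Agent.Helper7.PT
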