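import Pool.Agent.Helper72.PT.St

open Finset

namespace Pool.Agent.Helper7.PT

open Pool.HW Pool.PL Pool.PT

private theorem image_le {α β : Type*} [DecidableEq β] (s : Finset α) (g : α → β) (f : β → ℝ)
    (hf : ∀ b, 0 ≤ f b) : ∑ b ∈ s.image g, f b ≤ ∑ a ∈ s, f (g a) := by
  classical
  induction s using Finset.induction_on with
  | empty => simp
  | insert a s ha ih =>
    rw [Finset.image_insert, Finset.sum_insert ha]
    by_cases h : g a ∈ s.image g
    · rw [Finset.insert_eq_of_mem h]
      have := hf (g a)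
      linarith
    · rw [Finset.sum_insert h]
      linarith

theorem half2 : StHalf2 := by
  classical
  intro z M a b hz
  unfold FF
  set A1 := (wle (HsH (a + 1)) M).filter (fun v => Sa (b ++ v.map flipY)) with hA1
  set A0 := (wle (HsH a) M).filter (fun v => Sa (b ++ v.map flipY)) with hA0
  set BB := (wle (BrH (a + 1)) M).filter (fun b' => Sa (b ++ b'.map flipY)) with hBB
  let T : Finset (Σ _ : List Dir, List Dir) :=
    BB.sigma fun b' => (wle (HsH a) M).filter (fun v => Sa (b' ++ v.map flipY))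
  let g : (Σ _ : List Dir, List Dir) → List Dir := fun p => p.1 ++ p.2.map flipY
  have hsub : A1 ⊆ A0 ∪ T.image g := by
    intro w hw
    rw [hA1, Finset.mem_filter, mem_wle] at hw
    obtain ⟨⟨hl, hH⟩, hSa⟩ := hw
    rw [Finset.mem_union]
    rcases half_decomp hH with h | ⟨u, v, huv, hu, hv⟩
    · left
      rw [hA0, Finset.mem_filter, mem_wle]
      exact ⟨⟨hl, h⟩, hSa⟩
    · right
      refine Finset.mem_image.2 ⟨⟨u, v⟩, ?_, huv.symm⟩
      have hl' := hl
      rw [huv, List.length_append, List.length_map] at hl'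
      rw [Finset.mem_sigma, hBB, Finset.mem_filter, Finset.mem_filter, mem_wle, mem_wle]
      refine ⟨⟨⟨by show u.length ≤ M; omega, hu⟩, ?_⟩, ⟨by show v.length ≤ M; omega, hv⟩, ?_⟩
      · refine hSa.of_infix ?_
        rw [huv, List.map_append, ← List.append_assoc]
        exact (List.prefix_append _ _).isInfix
      · show Sa (u ++ v.map flipY)
        rw [← huv]
        exact hH.1.1
  have h1 : ∑ w ∈ A1, z ^ w.length ≤ ∑ w ∈ A0 ∪ T.image g, z ^ w.length :=
    Finset.sum_le_sum_of_subset_of_nonneg hsub (fun w _ _ => pow_nonneg hz _)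
  have h2 : ∑ w ∈ A0 ∪ T.image g, z ^ w.length ≤
      ∑ w ∈ A0, z ^ w.length + ∑ w ∈ T.image g, z ^ w.length := by
    have := Finset.sum_union_inter (s₁ := A0) (s₂ := T.image g)
      (f := fun w : List Dir => z ^ w.length)
    have h2 : 0 ≤ ∑ w ∈ A0 ∩ T.image g, z ^ w.length :=
      Finset.sum_nonneg fun w _ => pow_nonneg hz _
    linarith
  have h3 : ∑ w ∈ T.image g, z ^ w.length ≤ ∑ p ∈ T, z ^ (g p).length :=
    image_le T g (fun w => z ^ w.length) (fun w => pow_nonneg hz _)
  have h4 : ∑ p ∈ T, z ^ (g p).length = ∑ b' ∈ BB, z ^ b'.length *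
      ∑ v ∈ (wle (HsH a) M).filter (fun v => Sa (b' ++ v.map flipY)), z ^ v.length := by
    rw [Finset.sum_sigma]
    refine Finset.sum_congr rfl fun b' _ => ?_
    rw [Finset.mul_sum]
    refine Finset.sum_congr rfl fun v _ => ?_
    show z ^ (b' ++ v.map flipY).length = _
    rw [List.length_append, List.length_map, pow_add]
  linarith

end Pool.Agent.Helper7.PT
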